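import Pool.Agent.Helper20.MH.Goals

set_option autoImplicit false

/-!
# Machines with several heads: the parameters are computed in linear space, large `n`
-/

namespace Pool.Agent.Helper48.MH

open Pool.Agent.Helper20.MH
open Pool.Agent.Helper65.LinSpace Pool.Agent.Helper78.Mpc Pool.Agent.Helper28.Ram Finset Filter
open Pool.Agent.Helper65.OH (kap)
open Pool.Agent.Helper28.Long (ZL)
open Pool.Agent.Helper65.RT (qT)

theorem LS_ZL {α : Type} [Ctx α] {n : α → ℕ} (hn : LS n) : LS (fun z => ZL (n z)) := by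
  unfold Pool.Agent.Helper28.Long.ZL
  have h1 : LS (fun z => LW (n z)) := LS.LW hn
  have h2 : LS (fun z => ll (ll (n z))) := by
    unfold ll
    fun_prop
  exact LS.div h1 h2

theorem lsg : LSG_stmt := by
  intro α _ n D K S c R E G d hn hD hK hS hc hR hE hG hd
  have hZ : LS (fun z => ZL (n z)) := LS_ZL hn
  unfold gd kap qT ll
  fun_prop

theorem evm : EVM_stmt := by
  intro c0
  filter_upwards [Pool.Agent.Helper28.Long.ev_par c0] with n hn S hS
  obtain ⟨h1, h2, h3⟩ := hn 0 (Nat.succ_pos _) S hS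
  have h4 : c0 * (S + 1) ≤ LW n := by
    refine le_trans (Nat.mul_le_mul_left _ ?_) h1
    omega
  refine ⟨h4, ?_, fun x hx => (h3 x hx).2⟩
  have hl2 := lt_two_pow_ll n
  have h7 : (n + 1) * (n + 1) ≤ 2 ^ (2 * ll n) := by
    rw [two_mul, pow_add]
    exact Nat.mul_le_mul hl2 hl2
  have h9 : LW n ≤ n := Nat.div_le_self _ _
  nlinarith

end Pool.Agent.Helper48.MH
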